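import Pool.Agent.P8H48.LV.Stm

/-!
Project LV (helper48), package PTA.
-/

set_option autoImplicit false

open CategoryTheory AlgebraicGeometry Pool.Agent.Y116.UV Pool.Agent.Z125.UN Pool.Agent.R904.TR
open Pool.Agent.R904.CU Pool.Agent.P8H48.DC Pool.Agent.P8H48.LV

namespace Pool.Agent.P8H76.LV

open MvPolynomial

variable {R : Type} [CommRing R]

/-- the closed subscheme of a finite family of functions and its open complement -/
lemma trip (B : Type) [CommRing B] [Algebra R B] {m : ℕ} (f : Fin m → B) :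
    ∃ (U : Sch R) (j : U ⟶ aff R B), IsOpenImmersion j.left ∧
      Set.range j.left = {x : PrimeSpectrum B | ∃ l, f l ∉ x.asIdeal} ∧
      IsTriple (affMap (Ideal.Quotient.mkₐ R (Ideal.span (Set.range f)))) j := by
  have ho : IsOpen {x : PrimeSpectrum B | ∃ l, f l ∉ x.asIdeal} := by
    have e : {x : PrimeSpectrum B | ∃ l, f l ∉ x.asIdeal} =
        (PrimeSpectrum.zeroLocus (Set.range f))ᶜ := by
      ext x
      simp only [Set.mem_ofPred_eq, Set.mem_compl_iff, PrimeSpectrum.mem_zeroLocus,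
        Set.range_subset_iff, not_forall, SetLike.mem_coe]
    rw [e]
    exact (PrimeSpectrum.isClosed_zeroLocus _).isOpen_compl
  obtain ⟨V, hV⟩ : ∃ V : (aff R B).left.Opens, (V : Set (aff R B).left) =
      {x : PrimeSpectrum B | ∃ l, f l ∉ x.asIdeal} := ⟨⟨_, ho⟩, rfl⟩
  have hr : Set.range (opnMap (aff R B) V).left = {x : PrimeSpectrum B | ∃ l, f l ∉ x.asIdeal} :=
    (range_opnMap (aff R B) V).trans hV
  refine ⟨opn (aff R B) V, opnMap (aff R B) V, inferInstance, hr,
    ⟨closed_affMap _ (Ideal.Quotient.mkₐ_surjective R _), inferInstance, ?_⟩⟩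
  rw [hr, range_affMap _ (Ideal.Quotient.mkₐ_surjective R _)]
  ext x
  change (∀ a, Ideal.Quotient.mk (Ideal.span (Set.range f)) a = 0 → a ∈ x.asIdeal) ↔
    ¬ (∃ l, f l ∉ x.asIdeal)
  rw [not_exists]
  constructor
  · intro h l
    rw [not_not]
    exact h _ (Ideal.Quotient.eq_zero_iff_mem.mpr (Ideal.subset_span ⟨l, rfl⟩))
  · intro h a ha
    rw [Ideal.Quotient.eq_zero_iff_mem] at ha
    have h2 : Ideal.span (Set.range f) ≤ x.asIdeal := by
      rw [Ideal.span_le]
      rintro _ ⟨l, rfl⟩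
      exact not_not.1 (h l)
    exact h2 ha

lemma iso_a {P : ℕ → Sch R → Prop} (hP : Lv P) (n : ℕ) {A B : Type} [CommRing A] [CommRing B]
    [Algebra R A] [Algebra R B] [Algebra.FiniteType R A] (e : A ≃ₐ[R] B) (h : P n (aff R A)) :
    P n (aff R B) := hP.iso n (ft_aff False) ⟨(affIso e).symm⟩ h

/-- the closed subscheme `g = 0` of the spectrum of `Hh h g` -/
lemma ringE (A : Type) [CommRing A] [Algebra R A] (h : A) {r : ℕ} (g : Fin r → A) :
    Nonempty ((Hh h g ⧸ Ideal.span (Set.range (gh h g))) ≃ₐ[R]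
      MvPolynomial (Fin r) (A ⧸ (Ideal.span {h} ⊔ Ideal.span (Set.range g)))) := by
  obtain ⟨I, hI⟩ : ∃ I : Ideal (MvPolynomial (Fin r) A), I =
    Ideal.span {C h + ∑ i, X i * C (g i)} := ⟨_, rfl⟩
  obtain ⟨J, hJ⟩ : ∃ J : Ideal (MvPolynomial (Fin r) A), J =
    Ideal.span (Set.range fun i => (C (g i) : MvPolynomial (Fin r) A)) := ⟨_, rfl⟩
  have e1 : Ideal.span (Set.range (gh h g)) = Ideal.map (Ideal.Quotient.mkₐ R
      (Ideal.span {C h + ∑ i, X i * C (g i)})) J := by
    rw [hJ, Ideal.map_span, ← Set.range_comp]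
    rfl
  have e2 : Ideal.span {C h + ∑ i, X i * C (g i)} ⊔ J = Ideal.map C
      (Ideal.span {h} ⊔ Ideal.span (Set.range g)) := by
    rw [Ideal.map_sup, Ideal.map_span, Ideal.map_span, Set.image_singleton, ← Set.range_comp]
    have e3 : (Ideal.span (Set.range ((C : A →+* MvPolynomial (Fin r) A) ∘ g))) = J := by
      rw [hJ]; rfl
    rw [e3]
    have hs : ∑ i, X i * C (g i) ∈ J := by
      refine Ideal.sum_mem _ fun i _ => Ideal.mul_mem_left _ _ ?_
      rw [hJ]
      exact Ideal.subset_span ⟨i, rfl⟩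
    apply le_antisymm
    · refine sup_le ?_ le_sup_right
      rw [Ideal.span_singleton_le_iff_mem]
      exact Ideal.add_mem _ (Ideal.mem_sup_left (Ideal.mem_span_singleton_self _))
        (Ideal.mem_sup_right hs)
    · refine sup_le ?_ le_sup_right
      rw [Ideal.span_singleton_le_iff_mem]
      have e4 : (C h + ∑ i, X i * C (g i)) - ∑ i, X i * C (g i) ∈
          Ideal.span {C h + ∑ i, X i * C (g i)} ⊔ J :=
        Ideal.sub_mem _ (Ideal.mem_sup_left (Ideal.mem_span_singleton_self _))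
          (Ideal.mem_sup_right hs)
      rwa [add_sub_cancel_right] at e4
  have E1 : (Hh h g ⧸ Ideal.span (Set.range (gh h g))) ≃ₐ[R]
      MvPolynomial (Fin r) A ⧸ (Ideal.span {C h + ∑ i, X i * C (g i)} ⊔ J) :=
    (Ideal.quotientEquivAlgOfEq R e1).trans (DoubleQuot.quotQuotEquivQuotSupₐ R _ J)
  have E2 := (MvPolynomial.quotientEquivQuotientMvPolynomial (σ := Fin r)
    (Ideal.span {h} ⊔ Ideal.span (Set.range g))).restrictScalars R
  exact ⟨E1.trans ((Ideal.quotientEquivAlgOfEq R e2).trans E2.symm)⟩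

/-- **PTA.** -/
theorem pta (hPOL : S_POL) (hPTI : S_PTI) : S_PTA := by
  intro R _ P hP n A _ _ _ h r g hA hAg hH
  have f1 : Algebra.FiniteType R (MvPolynomial (Fin r) A) :=
    Algebra.FiniteType.trans (S := A) inferInstance inferInstance
  have f2 : Algebra.FiniteType R (Hh h g) := inferInstance
  have f3 : Algebra.FiniteType R (Jou g) := inferInstance
  have f4 : Algebra.FiniteType R (MvPolynomial (Fin r) (Hh h g)) :=
    Algebra.FiniteType.trans (S := Hh h g) inferInstance inferInstance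
  have f5 : Algebra.FiniteType R (Jou (gh h g)) := inferInstance
  have f6 : Algebra.FiniteType R (MvPolynomial (Fin r) (Jou g)) :=
    Algebra.FiniteType.trans (S := Jou g) inferInstance inferInstance
  obtain ⟨U2, j2, o2, r2, t2⟩ := trip (R := R) A g
  obtain ⟨U1, j1, o1, r1, t1⟩ := trip (R := R) (Hh h g) (gh h g)
  have p2 : P (n + 1) U2 := hP.opened n _ j2 (ft_aff False) t2 hA hAg
  have p3 : P (n + 1) (aff R (Jou g)) := (hP.bundle (n + 1) A r g U2 j2 o2 r2).1 p2
  have p4 : P (n + 1) (aff R (MvPolynomial (Fin r) (Jou g))) :=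
    (hPOL R P hP (n + 1) (Jou g) (Fin r)).1 p3
  obtain ⟨E⟩ := hPTI A h r g
  have p5 : P (n + 1) (aff R (MvPolynomial (Fin 1) (Jou (gh h g)))) :=
    iso_a hP (n + 1) (E.symm.restrictScalars R) p4
  have p6 : P (n + 1) (aff R (Jou (gh h g))) :=
    (hPOL R P hP (n + 1) (Jou (gh h g)) (Fin 1)).2 p5
  have p7 : P (n + 1) U1 := (hP.bundle (n + 1) (Hh h g) r (gh h g) U1 j1 o1 r1).2 p6
  have p8 : P n (aff R (Hh h g ⧸ Ideal.span (Set.range (gh h g)))) :=
    hP.closed n _ j1 (ft_aff False) t1 hH p7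
  obtain ⟨E2⟩ := ringE (R := R) A h g
  exact (hPOL R P hP n _ (Fin r)).2 (iso_a hP n E2 p8)

end Pool.Agent.P8H76.LV
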